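import Pool.Agent.Helper80.AD.GoalsB

/-!
# Packet LAM of project AD (MP_6af536_nt): linear algebra.
-/

set_option autoImplicit false

open Matrix Polynomial

noncomputable section

namespace Pool.Agent.Helper16.AD

open Pool.Agent.Helper80.AD

set_option linter.unusedSectionVars false

variable {σ : Type} [Fintype σ] [DecidableEq σ]

/-- the sum norm of a vector -/
def n1 (v : σ → ℂ) : ℝ := ∑ s, ‖v s‖

/-- the sum of the absolute values of the entries -/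
def en (A : Matrix σ σ ℂ) : ℝ := ∑ s, ∑ t, ‖A s t‖

theorem n1_nonneg (v : σ → ℂ) : 0 ≤ n1 v := Finset.sum_nonneg fun _ _ => norm_nonneg _

theorem en_nonneg (A : Matrix σ σ ℂ) : 0 ≤ en A :=
  Finset.sum_nonneg fun _ _ => Finset.sum_nonneg fun _ _ => norm_nonneg _

theorem n1_mulVec (A : Matrix σ σ ℂ) (v : σ → ℂ) : n1 (A *ᵥ v) ≤ en A * n1 v := by
  unfold en
  rw [Finset.sum_mul]
  refine Finset.sum_le_sum fun s _ => ?_
  rw [Finset.sum_mul]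
  refine (norm_sum_le _ _).trans (Finset.sum_le_sum fun t _ => ?_)
  rw [norm_mul]
  refine mul_le_mul_of_nonneg_left ?_ (norm_nonneg _)
  exact Finset.single_le_sum (f := fun s => ‖v s‖) (fun _ _ => norm_nonneg _) (Finset.mem_univ t)

theorem n1_sum {ι : Type} (t : Finset ι) (f : ι → σ → ℂ) : n1 (∑ i ∈ t, f i) ≤ ∑ i ∈ t, n1 (f i) := by
  unfold n1
  rw [Finset.sum_comm]
  refine Finset.sum_le_sum fun s _ => ?_
  rw [Finset.sum_apply]
  exact norm_sum_le _ _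

theorem n1_smul (c : ℂ) (v : σ → ℂ) : n1 (c • v) = ‖c‖ * n1 v := by
  unfold n1
  rw [Finset.mul_sum]
  exact Finset.sum_congr rfl fun s _ => by rw [Pi.smul_apply, smul_eq_mul, norm_mul]

theorem pow_split (A : Matrix σ σ ℂ) (μ : ℂ) (n : ℕ) (v : σ → ℂ) :
    A ^ n *ᵥ v = ∑ k ∈ Finset.range (n + 1),
      (μ ^ (n - k) * (n.choose k : ℂ)) • ((A - μ • (1 : Matrix σ σ ℂ)) ^ k *ᵥ v) := by
  have hc : Commute (A - μ • (1 : Matrix σ σ ℂ)) (μ • (1 : Matrix σ σ ℂ)) :=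
    (Commute.one_right _).smul_right μ
  have h := hc.add_pow n
  rw [sub_add_cancel] at h
  rw [h, Matrix.sum_mulVec]
  refine Finset.sum_congr rfl fun k _ => ?_
  rw [_root_.smul_pow, one_pow, mul_smul_comm, mul_one]
  rw [← nsmul_eq_mul', ← Nat.cast_smul_eq_nsmul ℂ, smul_smul, Matrix.smul_mulVec, mul_comm]

theorem key (A : Matrix σ σ ℂ) (μ : ℂ) (hμ : μ ≠ 0) (N : ℕ) : ∃ C : ℝ, 0 ≤ C ∧
    ∀ (n : ℕ) (v : σ → ℂ), (A - μ • (1 : Matrix σ σ ℂ)) ^ N *ᵥ v = 0 →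
      n1 (A ^ n *ᵥ v) ≤ C * ((n : ℝ) + 1) ^ N * ‖μ‖ ^ n * n1 v := by
  set D := A - μ • (1 : Matrix σ σ ℂ) with hD
  have hμ0 : 0 < ‖μ‖ := norm_pos_iff.mpr hμ
  refine ⟨∑ k ∈ Finset.range N, ‖μ‖⁻¹ ^ k * en (D ^ k),
    Finset.sum_nonneg fun k _ => mul_nonneg (by positivity) (en_nonneg _), fun n v hv => ?_⟩
  have h0 : ∀ k, N ≤ k → D ^ k *ᵥ v = 0 := by
    intro k hk
    rw [← Nat.sub_add_cancel hk, pow_add, ← Matrix.mulVec_mulVec, hv, Matrix.mulVec_zero]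
  have hv0 := n1_nonneg v
  rw [pow_split A μ n v]
  refine (n1_sum _ _).trans ?_
  have h1 : ∀ k ∈ Finset.range (n + 1), n1 ((μ ^ (n - k) * (n.choose k : ℂ)) • (D ^ k *ᵥ v)) ≤
      if k < N then (‖μ‖⁻¹ ^ k * en (D ^ k)) * ((n : ℝ) + 1) ^ N * ‖μ‖ ^ n * n1 v else 0 := by
    intro k hk
    have hk' : k ≤ n := by rw [Finset.mem_range] at hk; omega
    rw [n1_smul]
    split_ifs with hkN
    · have e1 : ‖μ‖ ^ (n - k) = ‖μ‖⁻¹ ^ k * ‖μ‖ ^ n := by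
        have : ‖μ‖ ^ n = ‖μ‖ ^ k * ‖μ‖ ^ (n - k) := by rw [← pow_add]; congr 1; omega
        rw [this, ← mul_assoc, ← mul_pow, inv_mul_cancel₀ hμ0.ne', one_pow, one_mul]
      have e2 : ((n.choose k : ℕ) : ℝ) ≤ ((n : ℝ) + 1) ^ N := by
        have a : ((n.choose k : ℕ) : ℝ) ≤ (n : ℝ) ^ k := by exact_mod_cast Nat.choose_le_pow n k
        have b : (n : ℝ) ^ k ≤ ((n : ℝ) + 1) ^ k := by gcongr; linarith
        have c : ((n : ℝ) + 1) ^ k ≤ ((n : ℝ) + 1) ^ N :=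
          pow_le_pow_right₀ (by have : (0 : ℝ) ≤ n := Nat.cast_nonneg n; linarith) hkN.le
        exact a.trans (b.trans c)
      rw [norm_mul, norm_pow, Complex.norm_natCast, e1]
      have e3 := n1_mulVec (D ^ k) v
      have e4 : 0 ≤ ‖μ‖⁻¹ ^ k * ‖μ‖ ^ n := by positivity
      calc ‖μ‖⁻¹ ^ k * ‖μ‖ ^ n * (n.choose k : ℝ) * n1 (D ^ k *ᵥ v)
          ≤ ‖μ‖⁻¹ ^ k * ‖μ‖ ^ n * ((n : ℝ) + 1) ^ N * (en (D ^ k) * n1 v) := by
            refine mul_le_mul (mul_le_mul_of_nonneg_left e2 e4) e3 (n1_nonneg _) ?_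
            positivity
        _ = (‖μ‖⁻¹ ^ k * en (D ^ k)) * ((n : ℝ) + 1) ^ N * ‖μ‖ ^ n * n1 v := by ring
    · rw [h0 k (not_lt.mp hkN)]
      have : n1 (0 : σ → ℂ) = 0 := by simp [n1]
      rw [this, mul_zero]
  refine (Finset.sum_le_sum h1).trans ?_
  rw [← Finset.sum_filter, Finset.sum_mul, Finset.sum_mul, Finset.sum_mul]
  refine Finset.sum_le_sum_of_subset_of_nonneg ?_ fun k _ _ => ?_
  · intro k hk
    rw [Finset.mem_filter] at hk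
    exact Finset.mem_range.mpr hk.2
  · have := en_nonneg (D ^ k)
    positivity

/-- the spectral decomposition by polynomials -/
theorem projs [Nonempty σ] (M : Matrix σ σ ℂ) : ∃ P : ℂ → Matrix σ σ ℂ,
    (∑ μ ∈ M.charpoly.roots.toFinset, P μ = 1) ∧ (∀ μ, Commute (P μ) M) ∧
      ∀ μ ∈ M.charpoly.roots.toFinset, (M - μ • (1 : Matrix σ σ ℂ)) ^ Fintype.card σ * P μ = 0 := by
  classical
  set R := M.charpoly.roots.toFinset with hR
  set N := Fintype.card σ with hN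
  have hdeg : M.charpoly.natDegree = N := Matrix.charpoly_natDegree_eq_dim M
  have hN0 : 0 < N := Fintype.card_pos
  have hsplit : M.charpoly.Splits := IsAlgClosed.splits _
  have hmon : M.charpoly.Monic := Matrix.charpoly_monic M
  have hne : R.Nonempty := by
    have hcard : M.charpoly.roots.card = N := by
      rw [← hdeg]; exact (Polynomial.splits_iff_card_roots.mp hsplit)
    have : M.charpoly.roots ≠ 0 := by
      intro h
      rw [h] at hcard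
      simp at hcard
      omega
    obtain ⟨a, ha⟩ := Multiset.exists_mem_of_ne_zero this
    exact ⟨a, Multiset.mem_toFinset.mpr ha⟩
  have hcop : Pairwise (Function.onFun IsCoprime fun i : R => ((X - C (i : ℂ)) ^ N : ℂ[X])) := by
    intro i j hij
    refine IsCoprime.pow ?_
    have := Polynomial.pairwise_coprime_X_sub_C (K := ℂ) (s := fun i : R => (i : ℂ)) Subtype.coe_injective hij
    exact this
  obtain ⟨a, ha⟩ := (exists_sum_eq_one_iff_pairwise_coprime (s := fun i : ℂ => ((X - C i) ^ N : ℂ[X])) hne).mpr hcop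
  have hdvd : M.charpoly ∣ ∏ j ∈ R, ((X - C j) ^ N : ℂ[X]) := by
    have h1 : M.charpoly = ∏ j ∈ R, (X - C j) ^ (M.charpoly.rootMultiplicity j) := by
      have h2 := hsplit.eq_prod_roots_of_monic hmon
      exact h2.trans (Polynomial.prod_multiset_root_eq_finset_root (p := M.charpoly))
    rw [h1]
    refine Finset.prod_dvd_prod_of_dvd _ _ fun j _ => pow_dvd_pow _ ?_
    rw [← hdeg, Polynomial.splits_iff_card_roots.mp hsplit |>.symm, ← Polynomial.count_roots]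
    exact Multiset.count_le_card _ _
  have hzero : aeval M (∏ j ∈ R, ((X - C j) ^ N : ℂ[X])) = 0 := by
    obtain ⟨c, hc⟩ := hdvd
    rw [hc, map_mul, Matrix.aeval_self_charpoly, zero_mul]
  refine ⟨fun μ => aeval M (a μ * ∏ j ∈ R \ {μ}, ((X - C j) ^ N : ℂ[X])), ?_, ?_, ?_⟩
  · rw [← map_sum, ha, map_one]
  · intro μ
    have : M = aeval M (X : ℂ[X]) := by simp
    show Commute _ M
    nth_rewrite 2 [this]
    exact (Commute.all (a μ * ∏ j ∈ R \ {μ}, ((X - C j) ^ N : ℂ[X])) X).map (aeval M)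
  · intro μ hμ
    have h1 : (M - μ • (1 : Matrix σ σ ℂ)) ^ N = aeval M ((X - C μ) ^ N : ℂ[X]) := by
      simp [Algebra.algebraMap_eq_smul_one]
    show _ * aeval M (a μ * ∏ j ∈ R \ {μ}, ((X - C j) ^ N : ℂ[X])) = 0
    rw [h1, ← map_mul]
    have h2 : (X - C μ) ^ N * (a μ * ∏ j ∈ R \ {μ}, ((X - C j) ^ N : ℂ[X])) =
        a μ * ∏ j ∈ R, ((X - C j) ^ N : ℂ[X]) := by
      rw [← Finset.prod_sdiff (Finset.singleton_subset_iff.mpr hμ), Finset.prod_singleton]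
      ring
    rw [h2, map_mul, hzero, mul_zero]

theorem key' (A : Matrix σ σ ℂ) (μ : ℂ) (N : ℕ) : ∃ C : ℝ, 0 ≤ C ∧ (μ ≠ 0 →
    ∀ (n : ℕ) (v : σ → ℂ), (A - μ • (1 : Matrix σ σ ℂ)) ^ N *ᵥ v = 0 →
      n1 (A ^ n *ᵥ v) ≤ C * ((n : ℝ) + 1) ^ N * ‖μ‖ ^ n * n1 v) := by
  by_cases hμ : μ = 0
  · exact ⟨0, le_rfl, fun h => absurd hμ h⟩
  · obtain ⟨C, h0, h⟩ := key A μ hμ N
    exact ⟨C, h0, fun _ => h⟩

theorem inv_kill (M M' : Matrix σ σ ℂ) (h1 : M' * M = 1) (h2 : M * M' = 1) (μ : ℂ) (hμ : μ ≠ 0) (N : ℕ)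
    (v : σ → ℂ) (hv : (M - μ • (1 : Matrix σ σ ℂ)) ^ N *ᵥ v = 0) :
    (M' - μ⁻¹ • (1 : Matrix σ σ ℂ)) ^ N *ᵥ v = 0 := by
  have e : M' - μ⁻¹ • (1 : Matrix σ σ ℂ) = (-μ⁻¹) • (M' * (M - μ • (1 : Matrix σ σ ℂ))) := by
    rw [mul_sub, h1, mul_smul_comm, mul_one, smul_sub, smul_smul, neg_mul, inv_mul_cancel₀ hμ, neg_smul, neg_smul, one_smul]
    abel
  have hc : Commute M' (M - μ • (1 : Matrix σ σ ℂ)) := by
    have : Commute M' M := by rw [Commute, SemiconjBy, h1, h2]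
    exact this.sub_right ((Commute.one_right _).smul_right μ)
  rw [e, _root_.smul_pow, hc.mul_pow, Matrix.smul_mulVec, ← Matrix.mulVec_mulVec, hv, Matrix.mulVec_zero, smul_zero]

/-- the real sum -/
theorem real_sum (z : σ → ℂ) : n1 z ≤ ∑ s, |(z s).re| + ∑ s, |(z s).im| ∧
    ∑ s, |(z s).re| + ∑ s, |(z s).im| ≤ 2 * n1 z := by
  constructor
  · rw [← Finset.sum_add_distrib]
    exact Finset.sum_le_sum fun s _ => Complex.norm_le_abs_re_add_abs_im _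
  · rw [two_mul]
    exact add_le_add (Finset.sum_le_sum fun s _ => Complex.abs_re_le_norm _)
      (Finset.sum_le_sum fun s _ => Complex.abs_im_le_norm _)

theorem n1_real (B : Matrix σ σ ℤ) (n : ℕ) (L : σ → ℝ) :
    n1 ((B.map (Int.castRingHom ℂ)) ^ n *ᵥ fun s => (L s : ℂ)) =
      ∑ s', |∑ s'', ((B ^ n) s' s'' : ℝ) * L s''| := by
  have h : (B.map (Int.castRingHom ℂ)) ^ n = (B ^ n).map (Int.castRingHom ℂ) := by
    have := (map_pow ((Int.castRingHom ℂ).mapMatrix (m := σ)) B n).symm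
    simpa using this
  rw [h]
  refine Finset.sum_congr rfl fun s' _ => ?_
  have : (((B ^ n).map (Int.castRingHom ℂ)) *ᵥ fun s => (L s : ℂ)) s' =
      ((∑ s'', ((B ^ n) s' s'' : ℝ) * L s'' : ℝ) : ℂ) := by
    simp [Matrix.mulVec, dotProduct]
  rw [this, Complex.norm_real, Real.norm_eq_abs]

/-- PACKET LAM. -/
theorem lam : S_LAM := by
  classical
  intro σ _ _ B hB
  by_cases hσ : IsEmpty σ
  · refine ⟨0, 0, 0, 0, Fin.elim0, fun i => i.elim0, fun i => i.elim0, fun n L => ⟨fun i => i.elim0, ?_⟩⟩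
    simp
  have : Nonempty σ := not_isEmpty_iff.mp hσ
  obtain ⟨P, hP1, hPc, hPz⟩ := projs (B.map (Int.castRingHom ℂ))
  set M := B.map (Int.castRingHom ℂ) with hM
  set R := M.charpoly.roots.toFinset with hR
  set N := Fintype.card σ with hN
  have hdet : M.det ≠ 0 := by
    have : M.det = ((B.det : ℤ) : ℂ) := by
      rw [hM]
      exact ((Int.castRingHom ℂ).map_det B).symm
    rw [this]
    exact_mod_cast hB
  have hU : IsUnit M.det := isUnit_iff_ne_zero.mpr hdet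
  have hM1 : M⁻¹ * M = 1 := Matrix.nonsing_inv_mul M hU
  have hM2 : M * M⁻¹ = 1 := Matrix.mul_nonsing_inv M hU
  have hroot : ∀ μ ∈ R, M.charpoly.IsRoot μ := fun μ hμ =>
    (Polynomial.mem_roots M.charpoly_monic.ne_zero).mp (Multiset.mem_toFinset.mp hμ)
  have hne0 : ∀ μ ∈ R, μ ≠ 0 := by
    intro μ hμ h0
    have h1 := hroot μ hμ
    rw [h0] at h1
    apply hdet
    rw [Matrix.det_eq_sign_charpoly_coeff, Polynomial.coeff_zero_eq_eval_zero, h1, mul_zero]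
  choose C₀ hC₀ hK₀ using fun μ : ℂ => key' M μ N
  choose C₁ hC₁ hK₁ using fun μ : ℂ => key' M⁻¹ μ⁻¹ N
  set e := (Fintype.equivFin (σ ⊕ σ)).symm with he
  set Ct : ℕ := ⌈∑ μ ∈ R, (C₀ μ + 2 * C₁ μ * en (P μ))⌉₊ with hCt
  have hCle : ∀ μ ∈ R, C₀ μ + 2 * C₁ μ * en (P μ) ≤ Ct := by
    intro μ hμ
    refine le_trans ?_ (Nat.le_ceil _)
    refine Finset.single_le_sum (f := fun μ => C₀ μ + 2 * C₁ μ * en (P μ)) (fun ν _ => ?_) hμ
    have := hC₀ ν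
    have := hC₁ ν
    have := en_nonneg (P ν)
    positivity
  refine ⟨R.card, Fintype.card (σ ⊕ σ), N, Ct, fun i => ((R.equivFin.symm i : R) : ℂ),
    fun i j => Sum.elim (fun s t => (P ((R.equivFin.symm i : R) : ℂ) s t).re)
      (fun s t => (P ((R.equivFin.symm i : R) : ℂ) s t).im) (e j), fun i => ?_, fun n L => ?_⟩
  · exact ⟨hne0 _ (R.equivFin.symm i).2, hroot _ (R.equivFin.symm i).2⟩
  set Lc : σ → ℂ := fun s => (L s : ℂ) with hLc
  have hW : ∀ i : Fin R.card, ∑ j, |∑ s', Sum.elim (fun s t => (P ((R.equivFin.symm i : R) : ℂ) s t).re)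
      (fun s t => (P ((R.equivFin.symm i : R) : ℂ) s t).im) (e j) s' * L s'| =
      ∑ s, |((P ((R.equivFin.symm i : R) : ℂ) *ᵥ Lc) s).re| +
        ∑ s, |((P ((R.equivFin.symm i : R) : ℂ) *ᵥ Lc) s).im| := by
    intro i
    rw [Equiv.sum_comp e (fun x : σ ⊕ σ => |∑ s', Sum.elim (fun s t => (P ((R.equivFin.symm i : R) : ℂ) s t).re)
      (fun s t => (P ((R.equivFin.symm i : R) : ℂ) s t).im) x s' * L s'|), Fintype.sum_sum_type]
    simp [Matrix.mulVec, dotProduct, hLc]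
  have hcomm : ∀ μ, ∀ m : ℕ, M ^ m *ᵥ (P μ *ᵥ Lc) = P μ *ᵥ (M ^ m *ᵥ Lc) := by
    intro μ m
    rw [Matrix.mulVec_mulVec, Matrix.mulVec_mulVec, ((hPc μ).pow_right m).eq]
  have hkill : ∀ μ ∈ R, ∀ m : ℕ, (M - μ • (1 : Matrix σ σ ℂ)) ^ N *ᵥ (M ^ m *ᵥ (P μ *ᵥ Lc)) = 0 := by
    intro μ hμ m
    rw [hcomm, Matrix.mulVec_mulVec, hPz μ hμ, Matrix.zero_mulVec]
  have hn : (0 : ℝ) ≤ ((n : ℝ) + 1) ^ N := by positivity
  rw [← n1_real B n L]
  constructor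
  · intro i
    rw [hW i]
    set μ := ((R.equivFin.symm i : R) : ℂ) with hμdef
    have hμR : μ ∈ R := (R.equivFin.symm i).2
    have hμ0 := hne0 μ hμR
    have a1 := (real_sum (P μ *ᵥ Lc)).2
    have a2 := hK₁ μ (inv_ne_zero hμ0) n (M ^ n *ᵥ (P μ *ᵥ Lc))
      (inv_kill M M⁻¹ hM1 hM2 μ hμ0 N _ (hkill μ hμR n))
    have a3 : M⁻¹ ^ n *ᵥ (M ^ n *ᵥ (P μ *ᵥ Lc)) = P μ *ᵥ Lc := by
      rw [Matrix.mulVec_mulVec, ← (show Commute M⁻¹ M by rw [Commute, SemiconjBy, hM1, hM2]).mul_pow, hM1, one_pow,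
        Matrix.one_mulVec]
    rw [a3, hcomm] at a2
    have a4 := n1_mulVec (P μ) (M ^ n *ᵥ Lc)
    have hx := n1_nonneg (M ^ n *ᵥ Lc)
    have hpos : 0 < ‖μ‖ ^ n := pow_pos (norm_pos_iff.mpr hμ0) n
    have a5 : ‖μ‖ ^ n * ‖μ⁻¹‖ ^ n = 1 := by
      rw [← mul_pow, norm_inv, mul_inv_cancel₀ (norm_pos_iff.mpr hμ0).ne', one_pow]
    have h0 := hC₁ μ
    have h0' := hC₀ μ
    push_cast
    calc ‖μ‖ ^ n * (∑ s, |((P μ *ᵥ Lc) s).re| + ∑ s, |((P μ *ᵥ Lc) s).im|)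
        ≤ ‖μ‖ ^ n * (2 * n1 (P μ *ᵥ Lc)) := mul_le_mul_of_nonneg_left a1 hpos.le
      _ ≤ ‖μ‖ ^ n * (2 * (C₁ μ * ((n : ℝ) + 1) ^ N * ‖μ⁻¹‖ ^ n * (en (P μ) * n1 (M ^ n *ᵥ Lc)))) := by
          have : n1 (P μ *ᵥ Lc) ≤ C₁ μ * ((n : ℝ) + 1) ^ N * ‖μ⁻¹‖ ^ n * (en (P μ) * n1 (M ^ n *ᵥ Lc)) :=
            a2.trans (mul_le_mul_of_nonneg_left a4 (by positivity))
          gcongr
      _ = (2 * C₁ μ * en (P μ)) * ((n : ℝ) + 1) ^ N * n1 (M ^ n *ᵥ Lc) * (‖μ‖ ^ n * ‖μ⁻¹‖ ^ n) := by ring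
      _ = (2 * C₁ μ * en (P μ)) * ((n : ℝ) + 1) ^ N * n1 (M ^ n *ᵥ Lc) := by rw [a5, mul_one]
      _ ≤ (Ct : ℝ) * ((n : ℝ) + 1) ^ N * n1 (M ^ n *ᵥ Lc) := by
          have := hCle μ hμR
          gcongr
          linarith
  · have b1 : M ^ n *ᵥ Lc = ∑ μ ∈ R, M ^ n *ᵥ (P μ *ᵥ Lc) := by
      have : Lc = ∑ μ ∈ R, P μ *ᵥ Lc := by
        rw [← Matrix.sum_mulVec, hP1, Matrix.one_mulVec]
      conv_lhs => rw [this]
      rw [Matrix.mulVec_sum]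
    have b2 : n1 (M ^ n *ᵥ Lc) ≤ ∑ μ ∈ R, (Ct : ℝ) * ((n : ℝ) + 1) ^ N *
        (‖μ‖ ^ n * (∑ s, |((P μ *ᵥ Lc) s).re| + ∑ s, |((P μ *ᵥ Lc) s).im|)) := by
      rw [b1]
      refine (n1_sum _ _).trans (Finset.sum_le_sum fun μ hμ => ?_)
      have c1 := hK₀ μ (hne0 μ hμ) n (P μ *ᵥ Lc) (by
        have := hkill μ hμ 0
        rwa [pow_zero, Matrix.one_mulVec] at this)
      have c2 := (real_sum (P μ *ᵥ Lc)).1
      have c3 := hCle μ hμ
      have c4 : C₀ μ ≤ Ct := by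
        have := hC₁ μ
        have := en_nonneg (P μ)
        have : 0 ≤ 2 * C₁ μ * en (P μ) := by positivity
        linarith
      refine c1.trans ?_
      have hx := n1_nonneg (P μ *ᵥ Lc)
      have h0 := hC₀ μ
      calc C₀ μ * ((n : ℝ) + 1) ^ N * ‖μ‖ ^ n * n1 (P μ *ᵥ Lc)
          ≤ Ct * ((n : ℝ) + 1) ^ N * ‖μ‖ ^ n *
            (∑ s, |((P μ *ᵥ Lc) s).re| + ∑ s, |((P μ *ᵥ Lc) s).im|) := by gcongr
        _ = _ := by ring
    refine b2.trans (le_of_eq ?_)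
    rw [← Finset.mul_sum]
    push_cast
    congr 1
    rw [← Finset.sum_coe_sort R, ← Equiv.sum_comp R.equivFin.symm]
    exact Finset.sum_congr rfl fun i _ => by rw [hW i]

end Pool.Agent.Helper16.AD
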